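import Mathlib

set_option autoImplicit false

/-!
# The integers with a unique minimal generalized Markoff triple: `U(x) = O(x / log x)`

If `m` has exactly one minimal triple, then `m = 3 a² + 3 a³` or `m` is in exactly one way a sum of
two positive squares. In the latter case `m = s² n` with `n ∈ {1, 2}` or `n = p`, `n = 2 p` for a
prime `p`, and Chebyshev's bound gives the result.
-/

namespace Pool.Agent.Results.MP_3400ab_nt.UpperBound

/-- the minimal `m`-Markoff triples `(a, b, c)`: positive integers `a ≤ b ≤ c` with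
`a² + b² + c² = 3 a b c + m` and `c ≥ 3 a b` -/
def Minimal (m : ℕ) : Set (ℕ × ℕ × ℕ) :=
  {t | 0 < t.1 ∧ t.1 ≤ t.2.1 ∧ t.2.1 ≤ t.2.2 ∧ 3 * t.1 * t.2.1 ≤ t.2.2 ∧
    t.1 ^ 2 + t.2.1 ^ 2 + t.2.2 ^ 2 = 3 * t.1 * t.2.1 * t.2.2 + m}

/-- the integers `m > 1` with exactly one minimal triple -/
def U : Set ℕ := {m | 1 < m ∧ (Minimal m).ncard = 1}

/-- `m` is a sum of two positive squares in exactly one way -/
def UniqueRep (m : ℕ) : Prop :=
  ∃ a b : ℕ, 0 < a ∧ a ≤ b ∧ a ^ 2 + b ^ 2 = m ∧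
    ∀ a' b' : ℕ, 0 < a' → a' ≤ b' → a' ^ 2 + b' ^ 2 = m → a' = a ∧ b' = b

theorem mem_U {m : ℕ} (h : m ∈ U) : (∃ a : ℕ, m = 3 * a ^ 2 + 3 * a ^ 3) ∨ UniqueRep m := by
  obtain ⟨-, h⟩ := h
  obtain ⟨⟨a, b, c⟩, hO⟩ := Set.ncard_eq_one.mp h
  have hmem : (a, b, c) ∈ Minimal m := by rw [hO]; exact Set.mem_singleton _
  have huniq : ∀ t ∈ Minimal m, t = (a, b, c) := by
    intro t ht
    rw [hO] at ht
    exact ht
  obtain ⟨ha, hab, hbc, h3, heq⟩ := hmem
  simp only at ha hab hbc h3 heq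
  obtain ⟨f, hf⟩ : ∃ f, c = 3 * a * b + f := ⟨c - 3 * a * b, by omega⟩
  rcases Nat.eq_zero_or_pos f with h0 | hfpos
  · right
    refine ⟨a, b, ha, hab, ?_, ?_⟩
    · subst h0
      rw [add_zero] at hf
      have : c ^ 2 = 3 * a * b * c := by rw [hf]; ring
      omega
    · intro a' b' ha' hab' h'
      have hmem' : (a', b', 3 * a' * b') ∈ Minimal m := by
        refine ⟨ha', hab', ?_, le_rfl, ?_⟩
        · simp only
          nlinarith
        · simp only
          have : (3 * a' * b') ^ 2 = 3 * a' * b' * (3 * a' * b') := by ring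
          omega
      have h2 := huniq _ hmem'
      simp only [Prod.mk.injEq] at h2
      exact ⟨h2.1, h2.2.1⟩
  · left
    have hm : m = a ^ 2 + b ^ 2 + f ^ 2 + 3 * a * b * f := by
      have : c ^ 2 = 3 * a * b * c + 3 * a * b * f + f ^ 2 := by rw [hf]; ring
      omega
    -- the triple built from two of the three numbers
    have key : ∀ x y w : ℕ, 0 < x → 0 < y → x ≤ y → 0 < w →
        m = x ^ 2 + y ^ 2 + w ^ 2 + 3 * x * y * w → (x, y, 3 * x * y + w) ∈ Minimal m := by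
      intro x y w hx hy hxy hw h
      refine ⟨hx, hxy, ?_, ?_, ?_⟩
      · simp only
        nlinarith [Nat.mul_le_mul_right y hx]
      · simp only
        omega
      · simp only
        rw [h]
        ring
    have hb : 0 < b := by omega
    have hab' : a = b ∧ b = f := by
      -- the pair `{a, f}`
      rcases le_total a f with haf | haf
      · have h2 := huniq _ (key a f b ha hfpos haf hb (by rw [hm]; ring))
        simp only [Prod.mk.injEq] at h2
        -- `f = b`; the pair `{b, f} = {b, b}`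
        have h5 := huniq _ (key b f a hb hfpos (by omega) ha (by rw [hm]; ring))
        simp only [Prod.mk.injEq] at h5
        omega
      · have h2 := huniq _ (key f a b hfpos ha haf hb (by rw [hm]; ring))
        simp only [Prod.mk.injEq] at h2
        omega
    refine ⟨a, ?_⟩
    rw [hm, ← hab'.2, ← hab'.1]
    ring

/-- the numbers `1`, `2`, `p`, `2 p` -/
def Small (n : ℕ) : Prop := n = 1 ∨ n = 2 ∨ n.Prime ∨ ∃ p : ℕ, p.Prime ∧ n = 2 * p

theorem uniqueRep_small {m : ℕ} (h : UniqueRep m) : ∃ s n : ℕ, m = s ^ 2 * n ∧ Small n := by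
  obtain ⟨a, b, ha, hab, hm, huniq⟩ := h
  obtain ⟨a₁, b₁, hm₁, hb₁⟩ := Nat.eq_sq_add_sq_iff_eq_sq_mul.mp ⟨a, b, hm.symm⟩
  obtain ⟨n, c, hcn, hsq⟩ := Nat.sq_mul_squarefree b₁
  have hn : IsSquare (-1 : ZMod n) := ZMod.isSquare_neg_one_of_dvd ⟨c ^ 2, by rw [← hcn]; ring⟩ hb₁
  have hm2 : m = (a₁ * c) ^ 2 * n := by rw [hm₁, ← hcn]; ring
  refine ⟨a₁ * c, n, hm2, ?_⟩
  have hm0 : 0 < m := by
    have : 0 < a ^ 2 := by positivity
    omega
  have hs0 : 0 < a₁ * c := by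
    rcases Nat.eq_zero_or_pos (a₁ * c) with h | h
    · rw [h] at hm2
      simp at hm2
      omega
    · exact h
  have hn0 : n ≠ 0 := hsq.ne_zero
  by_contra hcon
  unfold Small at hcon
  push Not at hcon
  obtain ⟨h1, h2, hnp, h2p⟩ := hcon
  -- an odd prime factor
  obtain ⟨p, hp, hpn, hp2⟩ : ∃ p : ℕ, p.Prime ∧ p ∣ n ∧ p ≠ 2 := by
    by_contra hno
    push Not at hno
    have h3 : n.primeFactors ⊆ {2} := by
      intro q hq
      rw [Finset.mem_singleton]
      exact hno q (Nat.prime_of_mem_primeFactors hq) (Nat.dvd_of_mem_primeFactors hq)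
    have h4 := Nat.prod_primeFactors_of_squarefree hsq
    rcases Finset.subset_singleton_iff.mp h3 with h5 | h5
    · rw [h5, Finset.prod_empty] at h4
      exact h1 h4.symm
    · rw [h5, Finset.prod_singleton] at h4
      exact h2 h4.symm
  obtain ⟨v, hv⟩ := hpn
  have hcop : Nat.Coprime p v := by
    rw [hv] at hsq
    exact Nat.coprime_of_squarefree_mul hsq
  have hvsq : Squarefree v := by
    rw [hv] at hsq
    exact hsq.squarefree_of_dvd (Dvd.intro_left p rfl)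
  have hv1 : v ≠ 1 := by
    intro h
    rw [h, mul_one] at hv
    exact hnp (hv ▸ hp)
  have hv2 : v ≠ 2 := by
    intro h
    exact h2p p hp (by rw [hv, h, mul_comm])
  have hp4 : p % 4 ≠ 3 := by
    have h5 : IsSquare (-1 : ZMod p) := ZMod.isSquare_neg_one_of_dvd ⟨v, hv⟩ hn
    exact Nat.mod_four_ne_three_of_mem_primeFactors_of_isSquare_neg_one
      (Nat.mem_primeFactors.mpr ⟨hp, dvd_rfl, hp.ne_zero⟩) h5
  have : Fact p.Prime := ⟨hp⟩
  obtain ⟨s, t, hst⟩ := Nat.Prime.sq_add_sq hp4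
  obtain ⟨w, z, hwz⟩ := Nat.eq_sq_add_sq_of_isSquare_mod_neg_one
    (ZMod.isSquare_neg_one_of_dvd (m := v) ⟨p, by rw [hv]; ring⟩ hn)
  -- squarefree numbers `> 1` are not squares
  have nosq : ∀ k r : ℕ, Squarefree k → k ≠ 1 → k ≠ r ^ 2 := by
    intro k r hk hk1 h
    have h6 : r * r ∣ k := by rw [h, sq]
    have h7 := hk r h6
    rw [Nat.isUnit_iff] at h7
    rw [h7] at h
    omega
  have hpsq : Squarefree p := hp.prime.squarefree
  have hs : 0 < s := by
    rcases Nat.eq_zero_or_pos s with h | h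
    · exact absurd (by rw [← hst, h]; ring) (nosq p t hpsq hp.one_lt.ne')
    · exact h
  have ht : 0 < t := by
    rcases Nat.eq_zero_or_pos t with h | h
    · exact absurd (by rw [← hst, h]; ring) (nosq p s hpsq hp.one_lt.ne')
    · exact h
  have hw : 0 < w := by
    rcases Nat.eq_zero_or_pos w with h | h
    · exact absurd (by rw [hwz, h]; ring) (nosq v z hvsq hv1)
    · exact h
  have hz : 0 < z := by
    rcases Nat.eq_zero_or_pos z with h | h
    · exact absurd (by rw [hwz, h]; ring) (nosq v w hvsq hv1)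
    · exact h
  have hst' : s ≠ t := by
    intro h
    rw [h] at hst
    have : 2 ∣ p := ⟨t ^ 2, by rw [← hst]; ring⟩
    exact hp2 ((Nat.prime_dvd_prime_iff_eq Nat.prime_two hp).mp this).symm
  have hwz' : w ≠ z := by
    intro h
    rw [h] at hwz
    have h8 : z * z ∣ v := ⟨2, by rw [hwz]; ring⟩
    have h9 := hvsq z h8
    rw [Nat.isUnit_iff] at h9
    rw [h9] at hwz
    exact hv2 (by rw [hwz]; norm_num)
  -- the two representations of `n`
  set S : ℕ := a₁ * c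
  have hnval : (n : ℤ) = ((s : ℤ) ^ 2 + t ^ 2) * (w ^ 2 + z ^ 2) := by
    rw [hv, hwz, ← hst]; push_cast; ring
  -- absolute values
  set x₁ : ℕ := ((s : ℤ) * w - t * z).natAbs with hx₁
  set y₁ : ℕ := s * z + t * w with hy₁
  set x₂ : ℕ := s * w + t * z with hx₂
  set y₂ : ℕ := ((s : ℤ) * z - t * w).natAbs with hy₂
  have e1 : x₁ ^ 2 + y₁ ^ 2 = n := by
    zify
    rw [hx₁, hy₁, hnval, Int.natCast_natAbs, sq_abs]
    push_cast
    ring
  have e2 : x₂ ^ 2 + y₂ ^ 2 = n := by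
    zify
    rw [hx₂, hy₂, hnval, Int.natCast_natAbs, sq_abs]
    push_cast
    ring
  have hn1 : n ≠ 1 := h1
  have pos : ∀ x y : ℕ, x ^ 2 + y ^ 2 = n → 0 < x ∧ 0 < y := by
    intro x y hxy
    constructor
    · rcases Nat.eq_zero_or_pos x with h | h
      · exact absurd (by rw [← hxy, h]; ring) (nosq n y hsq hn1)
      · exact h
    · rcases Nat.eq_zero_or_pos y with h | h
      · exact absurd (by rw [← hxy, h]; ring) (nosq n x hsq hn1)
      · exact h
  -- every representation of `n` gives the same unordered pair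
  have same : ∀ x y : ℕ, x ^ 2 + y ^ 2 = n → (S * x = a ∧ S * y = b) ∨ (S * y = a ∧ S * x = b) := by
    intro x y hxy
    obtain ⟨hx, hy⟩ := pos x y hxy
    rcases le_total x y with h | h
    · left
      exact huniq (S * x) (S * y) (by positivity) (Nat.mul_le_mul_left _ h)
        (by rw [hm2, ← hxy]; ring)
    · right
      exact huniq (S * y) (S * x) (by positivity) (Nat.mul_le_mul_left _ h)
        (by rw [hm2, ← hxy]; ring)
  have c1 := same x₁ y₁ e1
  have c2 := same x₂ y₂ e2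
  have cancel : ∀ x y : ℕ, S * x = S * y → x = y := fun x y h =>
    Nat.eq_of_mul_eq_mul_left hs0 h
  have hfin : x₂ = x₁ ∨ x₂ = y₁ := by
    rcases c1 with ⟨h3, h4⟩ | ⟨h3, h4⟩ <;> rcases c2 with ⟨h5, h6⟩ | ⟨h5, h6⟩
    · left; exact cancel _ _ (h5.trans h3.symm)
    · right; exact cancel _ _ (h6.trans h4.symm)
    · right; exact cancel _ _ (h5.trans h3.symm)
    · left; exact cancel _ _ (h6.trans h4.symm)
  rcases hfin with h | h
  · -- `s w + t z = |s w - t z|`
    have hsw : 0 < s * w := Nat.mul_pos hs hw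
    have htz : 0 < t * z := Nat.mul_pos ht hz
    have : ((s : ℤ) * w - t * z).natAbs < s * w + t * z := by
      have h10 : (0 : ℤ) < s * w := by exact_mod_cast hsw
      have h11 : (0 : ℤ) < t * z := by exact_mod_cast htz
      zify
      rw [abs_lt]
      constructor <;> linarith
    omega
  · -- `s w + t z = s z + t w`
    have h12 : ((s : ℤ) - t) * ((w : ℤ) - z) = 0 := by
      have h13 : (s : ℤ) * w + t * z = s * z + t * w := by exact_mod_cast h
      linarith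
    rcases mul_eq_zero.mp h12 with h14 | h14
    · exact hst' (by omega)
    · exact hwz' (by omega)

/-! ### Counting -/

open Real

theorem log_le_two_sqrt {y : ℝ} (hy : 1 ≤ y) : 1 + log y ≤ 2 * √y := by
  have h0 : 0 < √y := Real.sqrt_pos.mpr (by linarith)
  have h1 : log y = 2 * log (√y) := by
    rw [Real.log_sqrt (by linarith)]
    ring
  have h2 := Real.log_le_sub_one_of_pos h0
  linarith

/-- Chebyshev's bound -/
theorem chebyshev : ∃ C : ℝ, 0 < C ∧ ∀ y : ℝ, 1 ≤ y →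
    (Nat.primeCounting ⌊y⌋₊ : ℝ) ≤ C * y / (1 + log y) := by
  refine ⟨2 * log 4 * (1 + 1 / log 2) + 2, ?_, ?_⟩
  · have h1 : 0 < log 4 := Real.log_pos (by norm_num)
    have h2 : 0 < log 2 := Real.log_pos (by norm_num)
    positivity
  intro y hy
  have hlogy : 0 ≤ log y := Real.log_nonneg hy
  have h4 : 0 < log 4 := Real.log_pos (by norm_num)
  have h2 : 0 < log 2 := Real.log_pos (by norm_num)
  rcases lt_or_ge y 2 with h | h
  · have hfl : ⌊y⌋₊ ≤ 1 := by
      have : ⌊y⌋₊ < 2 := (Nat.floor_lt (by linarith)).mpr (by exact_mod_cast h)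
      omega
    have : Nat.primeCounting ⌊y⌋₊ = 0 := by
      have h5 : Nat.primeCounting ⌊y⌋₊ ≤ Nat.primeCounting 1 := Nat.monotone_primeCounting hfl
      have h6 : Nat.primeCounting 1 = 0 := by decide
      omega
    rw [this]
    push_cast
    positivity
  · have h5 := Chebyshev.pi_le_log4_mul_div (x := y) (by linarith)
    have hlog2y : log 2 ≤ log y := Real.log_le_log (by norm_num) h
    have hlogpos : 0 < log y := by linarith
    have hs : log √y = log y / 2 := Real.log_sqrt (by linarith)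
    rw [hs] at h5
    refine h5.trans ?_
    have h6 : √y ≤ 2 * y / (1 + log y) := by
      rw [le_div_iff₀ (by linarith)]
      have h7 := log_le_two_sqrt hy
      have h8 : √y * √y = y := Real.mul_self_sqrt (by linarith)
      have h9 : 0 ≤ √y := Real.sqrt_nonneg y
      nlinarith
    have h7 : log 4 * y / (log y / 2) ≤ 2 * log 4 * (1 + 1 / log 2) * y / (1 + log y) := by
      rw [div_le_div_iff₀ (by linarith) (by linarith)]
      have h8 : 1 + log y ≤ (1 + 1 / log 2) * log y := by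
        have h9 : 1 ≤ log y / log 2 := by
          rw [le_div_iff₀ h2]
          linarith
        have h10 : (1 + 1 / log 2) * log y = log y + log y / log 2 := by ring
        rw [h10]
        linarith
      have h9 : 0 ≤ log 4 * y := by positivity
      calc log 4 * y * (1 + log y) ≤ log 4 * y * ((1 + 1 / log 2) * log y) :=
            mul_le_mul_of_nonneg_left h8 h9
        _ = 2 * log 4 * (1 + 1 / log 2) * y * (log y / 2) := by ring
    calc log 4 * y / (log y / 2) + √y ≤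
        2 * log 4 * (1 + 1 / log 2) * y / (1 + log y) + 2 * y / (1 + log y) := add_le_add h7 h6
      _ = (2 * log 4 * (1 + 1 / log 2) + 2) * y / (1 + log y) := by ring

/-- the covering set of the elements `≤ N` of `U` -/
def cover (N : ℕ) : Finset ℕ :=
  (Finset.Icc 1 (Nat.sqrt N)).image (fun a => 3 * a ^ 2 + 3 * a ^ 3) ∪
  ((Finset.Icc 1 (Nat.sqrt N)).image (fun s => s ^ 2 * 1) ∪
  ((Finset.Icc 1 (Nat.sqrt N)).image (fun s => s ^ 2 * 2) ∪
  (Finset.Icc 1 (Nat.sqrt N)).biUnion (fun s =>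
    ((Finset.Icc 1 (N / s ^ 2)).filter Nat.Prime).image (fun p => s ^ 2 * p) ∪
    ((Finset.Icc 1 (N / s ^ 2)).filter Nat.Prime).image (fun p => s ^ 2 * (2 * p)))))

theorem card_primes (M : ℕ) : ((Finset.Icc 1 M).filter Nat.Prime).card ≤ Nat.primeCounting M := by
  rw [Nat.primeCounting, Nat.primeCounting', Nat.count_eq_card_filter_range]
  apply Finset.card_le_card
  intro p hp
  simp only [Finset.mem_filter, Finset.mem_Icc, Finset.mem_range] at hp ⊢
  exact ⟨by omega, hp.2⟩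

theorem cover_card (N : ℕ) : (cover N).card ≤ 3 * Nat.sqrt N +
    2 * ∑ s ∈ Finset.Icc 1 (Nat.sqrt N), Nat.primeCounting (N / s ^ 2) := by
  have h0 : (Finset.Icc 1 (Nat.sqrt N)).card = Nat.sqrt N := by simp
  unfold cover
  refine (Finset.card_union_le _ _).trans ?_
  have h1 : ((Finset.Icc 1 (Nat.sqrt N)).image (fun a => 3 * a ^ 2 + 3 * a ^ 3)).card ≤
      Nat.sqrt N := Finset.card_image_le.trans h0.le
  have h2 : ((Finset.Icc 1 (Nat.sqrt N)).image (fun s => s ^ 2 * 1)).card ≤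
      Nat.sqrt N := Finset.card_image_le.trans h0.le
  have h3 : ((Finset.Icc 1 (Nat.sqrt N)).image (fun s => s ^ 2 * 2)).card ≤
      Nat.sqrt N := Finset.card_image_le.trans h0.le
  have h4 : ((Finset.Icc 1 (Nat.sqrt N)).biUnion (fun s =>
    ((Finset.Icc 1 (N / s ^ 2)).filter Nat.Prime).image (fun p => s ^ 2 * p) ∪
    ((Finset.Icc 1 (N / s ^ 2)).filter Nat.Prime).image (fun p => s ^ 2 * (2 * p)))).card ≤
      2 * ∑ s ∈ Finset.Icc 1 (Nat.sqrt N), Nat.primeCounting (N / s ^ 2) := by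
    refine Finset.card_biUnion_le.trans ?_
    rw [Finset.mul_sum]
    refine Finset.sum_le_sum fun s _ => ?_
    refine (Finset.card_union_le _ _).trans ?_
    have h5 := card_primes (N / s ^ 2)
    have h6 := (Finset.card_image_le (s := (Finset.Icc 1 (N / s ^ 2)).filter Nat.Prime)
      (f := fun p => s ^ 2 * p))
    have h7 := (Finset.card_image_le (s := (Finset.Icc 1 (N / s ^ 2)).filter Nat.Prime)
      (f := fun p => s ^ 2 * (2 * p)))
    omega
  have h5 := Finset.card_union_le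
    ((Finset.Icc 1 (Nat.sqrt N)).image (fun s => s ^ 2 * 1))
    ((Finset.Icc 1 (Nat.sqrt N)).image (fun s => s ^ 2 * 2) ∪
  (Finset.Icc 1 (Nat.sqrt N)).biUnion (fun s =>
    ((Finset.Icc 1 (N / s ^ 2)).filter Nat.Prime).image (fun p => s ^ 2 * p) ∪
    ((Finset.Icc 1 (N / s ^ 2)).filter Nat.Prime).image (fun p => s ^ 2 * (2 * p))))
  have h6 := Finset.card_union_le
    ((Finset.Icc 1 (Nat.sqrt N)).image (fun s => s ^ 2 * 2))
    ((Finset.Icc 1 (Nat.sqrt N)).biUnion (fun s =>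
      ((Finset.Icc 1 (N / s ^ 2)).filter Nat.Prime).image (fun p => s ^ 2 * p) ∪
      ((Finset.Icc 1 (N / s ^ 2)).filter Nat.Prime).image (fun p => s ^ 2 * (2 * p))))
  omega

theorem U_sub (N m : ℕ) (hm : m ∈ U) (hmN : m ≤ N) : m ∈ cover N := by
  have hm1 : 1 < m := hm.1
  have hsq : ∀ s k : ℕ, m = s ^ 2 * k → 1 ≤ s ∧ s ≤ Nat.sqrt N ∧ 1 ≤ k ∧ k ≤ N / s ^ 2 := by
    intro s k h
    have hs : 0 < s := by
      rcases Nat.eq_zero_or_pos s with h0 | h0
      · subst h0; simp at h; omega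
      · exact h0
    have hk : 0 < k := by
      rcases Nat.eq_zero_or_pos k with h0 | h0
      · subst h0; simp at h; omega
      · exact h0
    refine ⟨hs, ?_, hk, ?_⟩
    · rw [Nat.le_sqrt]
      calc s * s = s ^ 2 * 1 := by ring
        _ ≤ s ^ 2 * k := Nat.mul_le_mul_left _ hk
        _ ≤ N := by omega
    · rw [Nat.le_div_iff_mul_le (by positivity)]
      rw [mul_comm]
      omega
  unfold cover
  simp only [Finset.mem_union, Finset.mem_image, Finset.mem_Icc, Finset.mem_biUnion,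
    Finset.mem_filter]
  rcases mem_U hm with ⟨a, ha⟩ | h
  · left
    have ha' : m = a ^ 2 * (3 + 3 * a) := by rw [ha]; ring
    obtain ⟨h1, h2, -, -⟩ := hsq a (3 + 3 * a) ha'
    exact ⟨a, ⟨h1, h2⟩, ha.symm⟩
  · right
    obtain ⟨s, n, hsn, hn⟩ := uniqueRep_small h
    obtain ⟨h1, h2, h3, h4⟩ := hsq s n hsn
    rcases hn with hn | hn | hn | ⟨p, hp, hn⟩
    · left
      exact ⟨s, ⟨h1, h2⟩, by rw [hsn, hn]⟩
    · right; left
      exact ⟨s, ⟨h1, h2⟩, by rw [hsn, hn]⟩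
    · right; right
      exact ⟨s, ⟨h1, h2⟩, Or.inl ⟨n, ⟨⟨h3, h4⟩, hn⟩, hsn.symm⟩⟩
    · right; right
      refine ⟨s, ⟨h1, h2⟩, Or.inr ⟨p, ⟨⟨hp.one_lt.le, ?_⟩, hp⟩, by rw [hsn, hn]⟩⟩
      omega

theorem sum_bound : ∃ C : ℝ, 0 < C ∧ ∀ x : ℝ, 2 ≤ x →
    (∑ s ∈ Finset.Icc 1 (Nat.sqrt ⌊x⌋₊), (Nat.primeCounting (⌊x⌋₊ / s ^ 2) : ℝ)) ≤
      C * x / log x := by
  obtain ⟨C, hC, hpi⟩ := chebyshev
  have hsum : Summable (fun n : ℕ => 1 / (n : ℝ) ^ ((3 : ℝ) / 2)) :=
    Real.summable_one_div_nat_rpow.mpr (by norm_num)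
  set T : ℝ := ∑' n : ℕ, 1 / (n : ℝ) ^ ((3 : ℝ) / 2) with hT
  have hT0 : 0 ≤ T := tsum_nonneg fun n => by positivity
  refine ⟨C * 4 * (T + 1), by positivity, ?_⟩
  intro x hx
  have hlx : 0 < log x := Real.log_pos (by linarith)
  have hterm : ∀ s ∈ Finset.Icc 1 (Nat.sqrt ⌊x⌋₊), (Nat.primeCounting (⌊x⌋₊ / s ^ 2) : ℝ) ≤
      (C * 4 * x / log x) * (1 / (s : ℝ) ^ ((3 : ℝ) / 2)) := by
    intro s hs
    rw [Finset.mem_Icc] at hs
    have hs0 : (0 : ℝ) < s := by exact_mod_cast hs.1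
    have hs1 : (1 : ℝ) ≤ s := by exact_mod_cast hs.1
    have hs2 : (s : ℝ) ^ 2 ≤ x := by
      have h1 : s * s ≤ ⌊x⌋₊ := Nat.le_sqrt.mp hs.2
      have h2 : ((s * s : ℕ) : ℝ) ≤ ⌊x⌋₊ := by exact_mod_cast h1
      have h3 := Nat.floor_le (show (0 : ℝ) ≤ x by linarith)
      push_cast at h2
      nlinarith
    set y : ℝ := x / (s : ℝ) ^ 2 with hy
    have hy1 : 1 ≤ y := by
      rw [hy, le_div_iff₀ (by positivity)]
      linarith
    have hfl : ⌊x⌋₊ / s ^ 2 = ⌊y⌋₊ := by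
      rw [hy]
      have := Nat.floor_div_natCast x (s ^ 2)
      push_cast at this
      exact this.symm
    rw [hfl]
    refine (hpi y hy1).trans ?_
    have hlogy : 0 ≤ log y := Real.log_nonneg hy1
    have hlogs : 0 ≤ log (s : ℝ) := Real.log_nonneg hs1
    have hlogx : log x = log y + 2 * log s := by
      rw [hy, Real.log_div (by positivity) (by positivity), Real.log_pow]
      push_cast
      ring
    have h1 : log x ≤ (1 + log y) * (1 + 2 * log s) := by
      rw [hlogx]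
      nlinarith [mul_nonneg hlogy hlogs]
    have h2 : 1 + 2 * log (s : ℝ) ≤ 4 * √s := by
      have := log_le_two_sqrt hs1
      linarith
    have h3 : log x ≤ (1 + log y) * (4 * √s) :=
      h1.trans (mul_le_mul_of_nonneg_left h2 (by linarith))
    have hrp : (s : ℝ) ^ ((3 : ℝ) / 2) * √s = (s : ℝ) ^ 2 := by
      rw [Real.sqrt_eq_rpow, ← Real.rpow_add hs0]
      norm_num
    have hrp0 : 0 < (s : ℝ) ^ ((3 : ℝ) / 2) := Real.rpow_pos_of_pos hs0 _
    rw [div_mul_div_comm, mul_one, div_le_div_iff₀ (by linarith) (by positivity)]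
    have hxy : x = y * (s : ℝ) ^ 2 := by
      rw [hy]
      field_simp
    calc C * y * (log x * (s : ℝ) ^ ((3 : ℝ) / 2))
        ≤ C * y * (((1 + log y) * (4 * √s)) * (s : ℝ) ^ ((3 : ℝ) / 2)) := by gcongr
      _ = C * 4 * (y * ((s : ℝ) ^ ((3 : ℝ) / 2) * √s)) * (1 + log y) := by ring
      _ = C * 4 * x * (1 + log y) := by rw [hrp, ← hxy]
  refine (Finset.sum_le_sum hterm).trans ?_
  rw [← Finset.mul_sum]
  have h4 : ∑ s ∈ Finset.Icc 1 (Nat.sqrt ⌊x⌋₊), 1 / (s : ℝ) ^ ((3 : ℝ) / 2) ≤ T :=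
    hsum.sum_le_tsum _ (fun n _ => by positivity)
  calc (C * 4 * x / log x) * ∑ s ∈ Finset.Icc 1 (Nat.sqrt ⌊x⌋₊), 1 / (s : ℝ) ^ ((3 : ℝ) / 2)
      ≤ (C * 4 * x / log x) * (T + 1) := by
        apply mul_le_mul_of_nonneg_left (by linarith)
        positivity
    _ = C * 4 * (T + 1) * x / log x := by ring

/-- **`U(x) = O(x / log x)`** -/
theorem result : ∃ C : ℝ, ∀ x : ℝ, 2 ≤ x →
    ({m : ℕ | m ∈ U ∧ (m : ℝ) ≤ x}.Finite) ∧
    (({m : ℕ | m ∈ U ∧ (m : ℝ) ≤ x}.ncard : ℕ) : ℝ) ≤ C * x / log x := by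
  obtain ⟨C, hC, hS⟩ := sum_bound
  refine ⟨6 + 2 * C, fun x hx => ?_⟩
  have hx0 : 0 ≤ x := by linarith
  have hsub : {m : ℕ | m ∈ U ∧ (m : ℝ) ≤ x} ⊆ (cover ⌊x⌋₊ : Set ℕ) := by
    rintro m ⟨hm, hmx⟩
    exact U_sub _ _ hm (Nat.le_floor hmx)
  have hfin := (cover ⌊x⌋₊).finite_toSet.subset hsub
  refine ⟨hfin, ?_⟩
  have h1 : {m : ℕ | m ∈ U ∧ (m : ℝ) ≤ x}.ncard ≤ (cover ⌊x⌋₊).card := by
    rw [← Set.ncard_coe_finset]
    exact Set.ncard_le_ncard hsub (cover ⌊x⌋₊).finite_toSet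
  have h2 := h1.trans (cover_card ⌊x⌋₊)
  have h3 : (({m : ℕ | m ∈ U ∧ (m : ℝ) ≤ x}.ncard : ℕ) : ℝ) ≤ 3 * (Nat.sqrt ⌊x⌋₊ : ℝ) +
      2 * ∑ s ∈ Finset.Icc 1 (Nat.sqrt ⌊x⌋₊), (Nat.primeCounting (⌊x⌋₊ / s ^ 2) : ℝ) := by
    exact_mod_cast h2
  refine h3.trans ?_
  have hlx : 0 < log x := Real.log_pos (by linarith)
  have h4 : (Nat.sqrt ⌊x⌋₊ : ℝ) ≤ √x := by
    refine Real.le_sqrt_of_sq_le ?_
    have h5 : Nat.sqrt ⌊x⌋₊ * Nat.sqrt ⌊x⌋₊ ≤ ⌊x⌋₊ := Nat.sqrt_le _
    have h6 : ((Nat.sqrt ⌊x⌋₊ * Nat.sqrt ⌊x⌋₊ : ℕ) : ℝ) ≤ ⌊x⌋₊ := by exact_mod_cast h5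
    have h7 := Nat.floor_le hx0
    push_cast at h6
    nlinarith
  have h5 : √x ≤ 2 * x / log x := by
    rw [le_div_iff₀ hlx]
    have h6 := log_le_two_sqrt (show 1 ≤ x by linarith)
    have h7 : √x * √x = x := Real.mul_self_sqrt hx0
    have h8 : 0 ≤ √x := Real.sqrt_nonneg x
    nlinarith
  calc 3 * (Nat.sqrt ⌊x⌋₊ : ℝ) +
      2 * ∑ s ∈ Finset.Icc 1 (Nat.sqrt ⌊x⌋₊), (Nat.primeCounting (⌊x⌋₊ / s ^ 2) : ℝ)
      ≤ 3 * (2 * x / log x) + 2 * (C * x / log x) := by
        gcongr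
        · exact h4.trans h5
        · exact hS x hx
    _ = (6 + 2 * C) * x / log x := by ring

end Pool.Agent.Results.MP_3400ab_nt.UpperBound
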